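import Pool.Agent.Results.MP_69386a_an.NoIncompressibleApprox
import Pool.Agent.Y767.IA.WeakJac

/-! # An incompressible Sobolev homeomorphism at positive `W^{1,1}` distance from all
incompressible maps of class `W^{1,2}_loc`

The starting result of this problem gives a homeomorphism `f` of the open square with
`det Df = 1` almost everywhere, of class `W^{1,p}` for every `p < 2`, which is not a `W^{1,p}` limit
of incompressible diffeomorphisms or of incompressible piecewise affine homeomorphisms. Here we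
show much more about the same `f`: every map `g` of class `W^{1,2}_loc` with `det Dg = 1` almost
everywhere, injective or not, has distance at least `δ > 0` from `f` in the norm of `W^{1,1}`.
The exponent `2` is optimal, since `f` itself belongs to `W^{1,p}` for every `p < 2`. -/

set_option autoImplicit false

open Set Filter Topology MeasureTheory Metric
open scoped ContDiff ENNReal

namespace Pool.Agent.Results.MP_69386a_an.SobolevGap

open NoIncompressibleApprox

/-- `u` is square integrable on the compact subsets of `Ω`. -/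
def IsL2Loc {n : ℕ} {F : Type} [NormedAddCommGroup F] (Ω : Set (E n)) (u : E n → F) : Prop :=
  ∀ K ⊆ Ω, IsCompact K → MemLp u 2 (volume.restrict K)

/-- `det D = 1` almost everywhere in `Ω`. -/
def DetEqOne {n : ℕ} (Ω : Set (E n)) (D : E n → E n →L[ℝ] E n) : Prop :=
  ∀ᵐ x ∂(volume.restrict Ω), (D x).det = 1

/-- The distance of `u` and `v` in `L¹` of the square. -/
noncomputable def distL1 {F : Type} [NormedAddCommGroup F] (u v : E 2 → F) : ℝ≥0∞ :=
  ∫⁻ x in square, ‖u x - v x‖ₑ

/-- `g` is an incompressible map of class `W^{1,2}_loc` on `Ω`: its weak differential (which is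
unique up to null sets) is square integrable on the compact subsets of `Ω` and has determinant `1`
almost everywhere in `Ω`. Nothing is assumed about the injectivity of `g`. -/
def IsIncompressibleW12Loc {n : ℕ} (Ω : Set (E n)) (g : E n → E n) : Prop :=
  ∀ D : E n → E n →L[ℝ] E n, IsWeakDiff Ω g D → IsL2Loc Ω D ∧ DetEqOne Ω D

lemma w12_of_nice {n : ℕ} {Ω : Set (E n)} {g : E n → E n}
    (h : ∀ D : E n → E n →L[ℝ] E n, IsWeakDiff Ω g D → Nice Ω D) :
    IsIncompressibleW12Loc Ω g := by
  intro D hD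
  refine ⟨fun K hK hKc => ?_, (h D hD).1⟩
  obtain ⟨C, hC⟩ := (h D hD).2 K hK hKc
  haveI : IsFiniteMeasure ((volume : Measure (E n)).restrict K) :=
    ⟨by rw [Measure.restrict_apply_univ]; exact hKc.measure_lt_top⟩
  exact MemLp.of_bound
    (hD.locInt_diff.integrableOn_compact_subset hK hKc).aestronglyMeasurable C hC

lemma isWD {g : E 2 → E 2} {D : E 2 → E 2 →L[ℝ] E 2} (hg : IsWeakDiff square g D) :
    H777R2.Inc.WD (ball 0 1) (H777R2.Inc.tr P.symm g) (H777R2.Inc.trD P.symm D) := by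
  have mpS : MeasurePreserving P.symm volume volume := mp_P.symm P.toHomeomorph.toMeasurableEquiv
  have hpre : P.symm.symm ⁻¹' square = ball (0 : ℝ × ℝ) 1 := square_preimage
  exact
    { locG := by
        have := H777R2.Inc.locInt_tr P.symm mpS (P.symm : E 2 →L[ℝ] (ℝ × ℝ)) hg.locInt
        rwa [hpre] at this
      locD := by
        have := H777R2.Inc.locInt_tr P.symm mpS
          ((P.symm.arrowCongr P.symm : (E 2 →L[ℝ] E 2) ≃L[ℝ] ((ℝ × ℝ) →L[ℝ] (ℝ × ℝ))) :
            (E 2 →L[ℝ] E 2) →L[ℝ] ((ℝ × ℝ) →L[ℝ] (ℝ × ℝ))) hg.locInt_diff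
        rwa [hpre] at this
      ibp := fun φ hφ v => by
        have := H777R2.Inc.ibp_tr P.symm mpS hg.locInt hg.locInt_diff
          hg.integral_eq φ hφ.smooth hφ.cpt (by rw [hpre]; exact hφ.supp) v
        rwa [hpre] at this }

lemma memLp_one_of_diff {α F : Type*} [MeasurableSpace α] [NormedAddCommGroup F]
    {μ : Measure α} {A B : α → F} (hA : AEStronglyMeasurable A μ) (hB : MemLp B 1 μ)
    (h : ∫⁻ x, ‖A x - B x‖ₑ ∂μ ≠ ⊤) : MemLp A 1 μ := by
  have hd : MemLp (A - B) 1 μ := by
    refine ⟨hA.sub hB.1, ?_⟩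
    rw [eLpNorm_one_eq_lintegral_enorm]
    exact lt_top_iff_ne_top.mpr h
  have := hd.add hB
  rwa [sub_add_cancel] at this

lemma memLp_Df : MemLp Df 1 (volume.restrict square) := by
  have := (inW1p_f (p := 1) le_rfl (by norm_num)).memLp_diff
  rwa [ENNReal.ofReal_one] at this

/-- the lower bound for a single map -/
lemma gap2 : ∃ δ : ℝ≥0∞, 0 < δ ∧ ∀ (g : E 2 → E 2) (D : E 2 → E 2 →L[ℝ] E 2),
    IsWeakDiff square g D → IsIncompressibleW12Loc square g →
    δ ≤ (∫⁻ x in square, ‖g x - f x‖ₑ) + ∫⁻ x in square, ‖D x - Df x‖ₑ := by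
  obtain ⟨ε, hε, hna⟩ := Pool.Agent.Y767.IA.non_approx2
  set L₁ : E 2 →L[ℝ] (ℝ × ℝ) := (P.symm : E 2 →L[ℝ] (ℝ × ℝ)) with hL₁
  set L₂ : (E 2 →L[ℝ] E 2) →L[ℝ] ((ℝ × ℝ) →L[ℝ] (ℝ × ℝ)) :=
    ((P.symm.arrowCongr P.symm : (E 2 →L[ℝ] E 2) ≃L[ℝ] ((ℝ × ℝ) →L[ℝ] (ℝ × ℝ))) :
      (E 2 →L[ℝ] E 2) →L[ℝ] ((ℝ × ℝ) →L[ℝ] (ℝ × ℝ))) with hL₂
  set c : ℝ := ‖L₁‖ + ‖L₂‖ + 1 with hc
  have hc0 : 0 < c := by positivity
  refine ⟨ENNReal.ofReal (ε / c), by rw [ENNReal.ofReal_pos]; positivity, ?_⟩
  intro g D hg hN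
  have mpS : MeasurePreserving P.symm volume volume := mp_P.symm P.toHomeomorph.toMeasurableEquiv
  have hpre : P.symm.symm ⁻¹' square = ball (0 : ℝ × ℝ) 1 := square_preimage
  have hms : MeasurableSet square := isOpen_square.measurableSet
  by_cases hfinD : ∫⁻ x in square, ‖D x - Df x‖ₑ = ⊤
  · rw [hfinD, add_top]
    exact le_top
  set G := H777R2.Inc.tr P.symm g with hG
  set D' := H777R2.Inc.trD P.symm D with hD'
  have hW : H777R2.Inc.WD (ball 0 1) G D' := isWD hg
  have hLB : Pool.Agent.Y767.IA.L2B (ball 0 1) D' := by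
    intro K hK hKc
    have hK1 : P '' K ⊆ square := by
      rintro _ ⟨x, hx, rfl⟩
      have := hK hx
      rw [← square_preimage] at this
      exact this
    have hK2 : IsCompact (P '' K) := hKc.image P.continuous
    have h1 := H777R2.Inc.memLp_tr P.symm mpS hK2.measurableSet L₂ ((hN D hg).1 _ hK1 hK2)
    have h2 : P.symm.symm ⁻¹' (P '' K) = K := preimage_image_eq K P.injective
    rw [h2] at h1
    exact h1
  have hGm : AEStronglyMeasurable G (volume.restrict (ball 0 1)) := hW.locG.aestronglyMeasurable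
  have hDi : IntegrableOn D' (ball 0 1) := by
    have := H777R2.Inc.memLp_tr P.symm mpS hms L₂
      (memLp_one_of_diff hg.locInt_diff.aestronglyMeasurable memLp_Df hfinD)
    rw [hpre] at this
    have hfin := isFiniteMeasure_ball
    exact this.integrable le_rfl
  have hdet : ∀ᵐ x ∂(volume.restrict (ball (0 : ℝ × ℝ) 1)), (D' x).det = 1 := by
    have h1 := H777R2.Inc.ae_tr P.symm mpS hms (hN D hg).2
    rw [hpre] at h1
    filter_upwards [h1] with x hx
    rw [hD', H777R2.Inc.det_trD]; exact hx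
  have h1 := hna G D' hW hLB hGm hDi hdet
  have h2 : (∫⁻ x in ball (0 : ℝ × ℝ) 1, ‖G x - H777R2.Inc.F 1 x‖ₑ) ≤
      ENNReal.ofReal c * ∫⁻ x in square, ‖g x - f x‖ₑ := by
    have h3 := H777R2.Inc.lint_tr P.symm mpS (U := square) (fun x => ‖g x - f x‖ₑ)
    rw [hpre] at h3
    rw [← h3, ← lintegral_const_mul' _ _ ENNReal.ofReal_ne_top]
    apply lintegral_mono fun x => ?_
    have h4 : G x - H777R2.Inc.F 1 x = L₁ (g (P x) - f (P x)) := by
      simp [hG, hL₁, H777R2.Inc.tr, f]
    rw [h4, ← ofReal_norm, ← ofReal_norm, ← ENNReal.ofReal_mul hc0.le]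
    apply ENNReal.ofReal_le_ofReal
    calc ‖L₁ (g (P x) - f (P x))‖ ≤ ‖L₁‖ * ‖g (P x) - f (P x)‖ := L₁.le_opNorm _
      _ ≤ c * ‖g (P x) - f (P x)‖ := by
          gcongr
          have := norm_nonneg L₂
          linarith
  have h3 : (∫⁻ x in ball (0 : ℝ × ℝ) 1, ‖D' x - fderiv ℝ (H777R2.Inc.F 1) x‖ₑ) ≤
      ENNReal.ofReal c * ∫⁻ x in square, ‖D x - Df x‖ₑ := by
    have h3 := H777R2.Inc.lint_tr P.symm mpS (U := square) (fun x => ‖D x - Df x‖ₑ)
    rw [hpre] at h3
    rw [← h3, ← lintegral_const_mul' _ _ ENNReal.ofReal_ne_top]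
    apply lintegral_mono fun x => ?_
    have h4 : D' x - fderiv ℝ (H777R2.Inc.F 1) x = L₂ (D (P x) - Df (P x)) := by
      have h5 : L₂ (Df (P x)) = fderiv ℝ (H777R2.Inc.F 1) x := by
        ext <;> simp [hL₂, Df, H777R2.Inc.trD]
      rw [map_sub, h5]; rfl
    rw [h4, ← ofReal_norm, ← ofReal_norm, ← ENNReal.ofReal_mul hc0.le]
    apply ENNReal.ofReal_le_ofReal
    calc ‖L₂ (D (P x) - Df (P x))‖ ≤ ‖L₂‖ * ‖D (P x) - Df (P x)‖ := L₂.le_opNorm _
      _ ≤ c * ‖D (P x) - Df (P x)‖ := by
          gcongr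
          have := norm_nonneg L₁
          linarith
  rw [ENNReal.ofReal_div_of_pos hc0]
  apply ENNReal.div_le_of_le_mul'
  rw [mul_add]
  exact h1.trans (add_le_add h2 h3)

/-- `f` is not a `W^{1,p}` limit of incompressible maps of class `W^{1,2}_loc`. -/
lemma not_approximable2 {p : ℝ≥0∞} (hp : 1 ≤ p) (hfp : InW1p square p f Df) :
    ¬ Approximable IsIncompressibleW12Loc square p f Df := by
  rintro ⟨g, Dg, hg, hW, hlim⟩
  obtain ⟨δ, hδ, hgap⟩ := gap2
  have hfin : volume square < ⊤ := by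
    have h1 : volume square = volume (ball (0 : ℝ × ℝ) 1) := by
      rw [← square_preimage]
      exact (mp_P.measure_preimage isOpen_square.measurableSet.nullMeasurableSet).symm
    rw [h1, H777R2.Inc.volume_ball_X]; exact ENNReal.ofNat_lt_top
  set V := (volume.restrict square) (univ : Set (E 2)) ^ (1 / (1 : ℝ≥0∞).toReal - 1 / p.toReal)
    with hV
  have hVtop : V ≠ ⊤ := by
    rw [hV, Measure.restrict_apply_univ]
    apply ENNReal.rpow_ne_top_of_nonneg _ hfin.ne
    rw [ENNReal.toReal_one, div_one, sub_nonneg]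
    rcases eq_or_ne p ⊤ with rfl | hpt
    · simp
    · have : 1 ≤ p.toReal := by
        rw [← ENNReal.toReal_one]; exact (ENNReal.toReal_le_toReal (by simp) hpt).2 hp
      rw [div_le_one (by linarith)]; exact this
  have hb : ∀ k, δ ≤ (eLpNorm (fun x => g k x - f x) p (volume.restrict square) +
      eLpNorm (fun x => Dg k x - Df x) p (volume.restrict square)) * V := by
    intro k
    refine (hgap (g k) (Dg k) (hW k).isWeakDiff (hg k)).trans ?_
    have h1 := eLpNorm_le_eLpNorm_mul_rpow_measure_univ hp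
      ((hW k).memLp.aestronglyMeasurable.sub hfp.memLp.aestronglyMeasurable)
    have h2 := eLpNorm_le_eLpNorm_mul_rpow_measure_univ hp
      ((hW k).memLp_diff.aestronglyMeasurable.sub hfp.memLp_diff.aestronglyMeasurable)
    rw [eLpNorm_one_eq_lintegral_enorm] at h1 h2
    rw [add_mul]
    exact add_le_add h1 h2
  have h3 : Tendsto (fun k => (eLpNorm (fun x => g k x - f x) p (volume.restrict square) +
      eLpNorm (fun x => Dg k x - Df x) p (volume.restrict square)) * V) atTop (𝓝 (0 * V)) :=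
    ENNReal.Tendsto.mul_const hlim (Or.inr hVtop)
  rw [zero_mul] at h3
  have h4 := ge_of_tendsto' h3 hb
  exact absurd h4 (not_le.2 hδ)

/-- `f`, with weak differential `Df`, is a homeomorphism of the square onto an open subset of the
plane, of class `W^{1,p}` for every `1 ≤ p < 2`, with `det Df = 1` almost everywhere. -/
structure IsIncompressibleSobolevHomeo (f : E 2 → E 2) (Df : E 2 → E 2 →L[ℝ] E 2) : Prop where
  homeo : IsHomeoOntoImage square f
  isOpen_image : IsOpen (f '' square)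
  det_eq_one : DetEqOne square Df
  inW1p : ∀ p : ℝ, 1 ≤ p → p < 2 → InW1p square (ENNReal.ofReal p) f Df

/-- Every incompressible map `g` of class `W^{1,2}_loc` on the square, with weak differential `D`,
satisfies `‖g - f‖_{L¹} + ‖D - Df‖_{L¹} ≥ δ`. -/
def HasGap (f : E 2 → E 2) (Df : E 2 → E 2 →L[ℝ] E 2) (δ : ℝ≥0∞) : Prop :=
  ∀ (g : E 2 → E 2) (D : E 2 → E 2 →L[ℝ] E 2), IsWeakDiff square g D →
    IsIncompressibleW12Loc square g →
    δ ≤ distL1 g f + distL1 D Df

/-- **Main theorem.** There are a homeomorphism `f` of the open square `(-1,1)²` onto an open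
subset of the plane, with weak differential `Df`, and a number `δ > 0`, such that

* `det Df = 1` almost everywhere, and `f ∈ W^{1,p}` for every `1 ≤ p < 2`;
* every incompressible map `g` of class `W^{1,2}_loc` on the square, injective or not, with weak
  differential `D`, satisfies `‖g - f‖_{L¹} + ‖D - Df‖_{L¹} ≥ δ`;
* in particular, for every `1 ≤ p < 2`, `f` is not a `W^{1,p}` limit of incompressible maps of
  class `W^{1,2}_loc`.

Incompressible diffeomorphisms and incompressible piecewise affine homeomorphisms of the square are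
incompressible maps of class `W^{1,2}_loc`. -/
theorem result :
    (∃ (f : E 2 → E 2) (Df : E 2 → E 2 →L[ℝ] E 2) (δ : ℝ≥0∞),
      IsIncompressibleSobolevHomeo f Df ∧ 0 < δ ∧ HasGap f Df δ ∧
      ∀ p : ℝ, 1 ≤ p → p < 2 →
        ¬ Approximable IsIncompressibleW12Loc square (ENNReal.ofReal p) f Df) ∧
    (∀ g : E 2 → E 2, IsIncompressibleDiffeo square g → IsIncompressibleW12Loc square g) ∧
    (∀ g : E 2 → E 2, IsIncompressiblePAHomeo square g → IsIncompressibleW12Loc square g) := by
  refine ⟨?_, fun g hg => w12_of_nice fun D hD => nice_of_diffeo isOpen_square hg hD,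
    fun g hg => w12_of_nice fun D hD => nice_of_pa isOpen_square hg hD⟩
  obtain ⟨δ, hδ, hgap⟩ := gap2
  exact ⟨f, Df, δ, ⟨isHomeo_f, isOpen_image_f, det_Df, fun p hp1 hp2 => inW1p_f hp1 hp2⟩, hδ, hgap,
    fun p hp1 hp2 => not_approximable2 (ENNReal.one_le_ofReal.2 hp1) (inW1p_f hp1 hp2)⟩

end Pool.Agent.Results.MP_69386a_an.SobolevGap
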